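import Mathlib
import Pool.Agent.Lib.MP_0f105f_co.Defs
import Pool.Agent.Lib.MP_0f105f_co.Example

set_option autoImplicit false

namespace Pool.Agent.Lib.MP_0f105f_co.Old.NonlinearTGQ

open Pool.Agent.Lib.MP_0f105f_co

theorem countable_poly : Countable (Polynomial ℚ) :=
  Cardinal.mk_le_aleph0_iff.mp (by simp)

theorem countable_frac : Countable (FractionRing (Polynomial ℚ)) := by
  have := countable_poly
  apply Function.Surjective.countable (f := fun p : Polynomial ℚ × Polynomial ℚ =>
    algebraMap _ (FractionRing (Polynomial ℚ)) p.1 / algebraMap _ _ p.2)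
  intro z
  obtain ⟨a, b, -, h⟩ := IsFractionRing.div_surjective (A := Polynomial ℚ) z
  exact ⟨(a, b), h⟩

theorem surj_of_comp {G : Type} [Group G] (α β : G →* G) (h : α.comp β = MonoidHom.id G) :
    Function.Surjective α :=
  fun g => ⟨β g, DFunLike.congr_fun h g⟩

/-- There is a translation generalized quadrangle whose kernel contains a nonzero element that
has no two-sided inverse in the kernel. -/
theorem result :
    ∃ (S : Geometry) (x : S.Point) (G : Subgroup S.Aut) (y : S.Point),
      S.IsTGQ x G ∧ ¬ S.Collinear x y ∧ HasNonzeroNonunit (S.kernel x y G) := by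
  have := countable_frac
  obtain ⟨σ, h1, h2, h3⟩ := exists_oval ℚ (FractionRing (Polynomial ℚ))
  have hk : Kantor (piMap (Polynomial ℚ) σ) (psiMap (Polynomial ℚ) (FractionRing (Polynomial ℚ))) :=
    kantor_example (IsFractionRing.injective _ _) σ h1 h2 h3
  refine ⟨geom _ _, .inf, _, .aff 0, hk.isTGQ, not_col_inf_aff 0,
    trEnd _ _ (mulMap (FractionRing (Polynomial ℚ)) (Polynomial.X : Polynomial ℚ)), ?_, ?_, ?_⟩
  · apply trEnd_mem_kernel
    · intro L t ht
      rw [piMap_mulMap, ht, mul_zero]
    · intro L t _ ht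
      rw [psiMap_mulMap, ht, mul_zero]
  · apply trEnd_ne_one _ (1, 0, 0)
    intro h
    have := congrArg Prod.fst h
    simp [mulMap_apply] at this
  · rintro ⟨β, -, hβ, -⟩
    refine trEnd_not_surj _ ?_ (surj_of_comp _ β hβ)
    intro hs
    obtain ⟨v, hv⟩ := hs (1, 0, 0)
    have h := congrArg Prod.fst hv
    simp only [mulMap_apply] at h
    exact Polynomial.not_isUnit_X (IsUnit.of_mul_eq_one _ h)

end Pool.Agent.Lib.MP_0f105f_co.Old.NonlinearTGQ
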