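import Mathlib
import Pool.Agent.Lib.MP_0f105f_co.Defs
import Pool.Agent.Lib.MP_0f105f_co.KGeom

set_option autoImplicit false

namespace Pool.Agent.Lib.MP_0f105f_co.Old.NonunitIndex

open Pool.Agent.Lib.MP_0f105f_co Pool.Agent.Lib.MP_0f105f_co.Geometry Cardinal

/-- The cosets `a α(A)`, `a ∈ A`, of the image `α(A)` in `A`. -/
def cosets {H : Type} [Group H] (α : H →* H) (A : Set H) : Set (Set H) :=
  {C | ∃ a ∈ A, C = (fun b => a * α b) '' A}

/-- The number of cosets of `α(A)` in `A`. -/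
def cosetIndex {H : Type} [Group H] (α : H →* H) (A : Set H) : Cardinal :=
  Cardinal.mk (cosets α A)

/-- `α` is a nonzero element of `k` (not the trivial endomorphism) without a two-sided inverse
in `k`. -/
def IsNonzeroNonunit {H : Type} [Group H] (k : Set (H →* H)) (α : H →* H) : Prop :=
  α ∈ k ∧ (∃ g : H, α g ≠ 1) ∧
    ¬ ∃ β ∈ k, α.comp β = MonoidHom.id H ∧ β.comp α = MonoidHom.id H

/-- The number of points on the line `M`. -/
def numPoints (S : Geometry) (M : S.Line) : Cardinal := Cardinal.mk {p : S.Point // S.inc p M}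

/-- The number of lines through the point `x`. -/
def numLines (S : Geometry) (x : S.Point) : Cardinal := Cardinal.mk {N : S.Line // S.inc x N}

theorem le_succ {X : Type} (P : X → Prop) (x0 : X) (h : ∀ x, ¬ P x → x = x0) :
    Cardinal.mk X ≤ Cardinal.mk {x // P x} + 1 := by
  rw [← Cardinal.mk_option]
  apply Cardinal.mk_le_of_surjective (f := fun o : Option {x // P x} => o.elim x0 Subtype.val)
  intro x
  by_cases hx : P x
  · exact ⟨some ⟨x, hx⟩, rfl⟩
  · exact ⟨none, (h x hx).symm⟩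

theorem not_onto {H I : Type} [AddCommGroup H] {A As : I → AddSubgroup H} {α : H →+ H}
    (K : AbsK A As) (P : APres A As α) (h0 : α ≠ 0) {L M : I} (h : L ≠ M) {b : H}
    (hb : b ∈ A M) (hn : ∀ b' ∈ A M, α b' ≠ b) : ∃ a ∈ A L, ∀ a' ∈ A L, α a' ≠ a := by
  obtain ⟨a, ha, h1⟩ := K.cosets P h0 h hb hn
  obtain ⟨N, hNL, hNM⟩ := K.third L M
  refine ⟨a ⟨N, hNL.symm⟩ - a ⟨M, h⟩, (A L).sub_mem (ha _) (ha _), fun a' ha' e => ?_⟩
  exact hNM (congrArg Subtype.val (h1 _ _ a' ha' e.symm))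

/-- If `α` is a nonzero element without inverse in the kernel of a translation generalized
quadrangle, then for every line `L` through `x` the index of `α(A_L)` in `A_L` is infinite and
equals both the number of points on the line `M_L` and the number of lines through `x`. -/
theorem result (S : Geometry) (x y : S.Point) (G : Subgroup S.Aut) (hT : S.IsTGQ x G)
    (hy : ¬ S.Collinear x y) (α : G →* G) (hα : IsNonzeroNonunit (S.kernel x y G) α)
    (M : S.Line) (hM : S.inc y M) :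
    Cardinal.aleph0 ≤ cosetIndex α (S.lineStab G M) ∧
      cosetIndex α (S.lineStab G M) = numPoints S M ∧
      cosetIndex α (S.lineStab G M) = numLines S x := by
  obtain ⟨hα, hne, hnu⟩ := hα
  unfold cosetIndex numPoints numLines
  classical
  obtain ⟨z, ⟨hz, L, hL, hzL⟩, -⟩ := hT.gq.projection x M (fun e => hy ⟨M, e, hM⟩)
  have F : Flag S x y L M z := ⟨hL, hM, hzL, hz⟩
  choose m w hF using fun L : {L // S.inc x L} => hT.gq.exists_flag hy L.2
  obtain ⟨rfl, rfl⟩ := F.uniq hT.gq hy (hF ⟨L, hL⟩)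
  let L0 : {L // S.inc x L} := ⟨L, hL⟩
  let _ := hT.commGroup
  have K := hT.absK hy m w hF
  have P := (hT.mem_kernel_iff hy m w hF α).mp hα
  have h0 : MonoidHom.toAdditive α ≠ 0 := by
    intro e
    obtain ⟨g, hg⟩ := hne
    exact hg (DFunLike.congr_fun e (Additive.ofMul g))
  have hno : ∃ N, ∃ b ∈ lineSub S G (m N), ∀ b' ∈ lineSub S G (m N),
      MonoidHom.toAdditive α b' ≠ b := by
    by_contra hcon
    push Not at hcon
    obtain ⟨β, hβ, e1, e2⟩ := K.inverse P h0 hcon
    refine hnu ⟨MonoidHom.toAdditive.symm β, (hT.mem_kernel_iff hy m w hF _).mpr ?_, ?_, ?_⟩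
    · rwa [Equiv.apply_symm_apply]
    · exact MonoidHom.ext fun g => e1 (Additive.ofMul g)
    · exact MonoidHom.ext fun g => e2 (Additive.ofMul g)
  have hno' : ∃ N, L0 ≠ N ∧ ∃ b ∈ lineSub S G (m N), ∀ b' ∈ lineSub S G (m N),
      MonoidHom.toAdditive α b' ≠ b := by
    obtain ⟨N, b, hb, hn⟩ := hno
    by_cases e : L0 = N
    · obtain ⟨N', hN', -⟩ := K.third N N
      exact ⟨N', e ▸ hN'.symm, not_onto K P h0 hN' hb hn⟩
    · exact ⟨N, e, b, hb, hn⟩
  obtain ⟨N0, hN0, b, hb, hn⟩ := hno'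
  obtain ⟨a, ha, hcos⟩ := K.cosets P h0 hN0 hb hn
  obtain ⟨a0, ha0, hn0⟩ := not_onto K P h0 hN0 hb hn
  have inf : ℵ₀ ≤ Cardinal.mk (lineSub S G (m L0)) := by
    rw [Cardinal.aleph0_le_mk_iff, ← not_finite_iff_infinite]
    intro hfin
    let r : lineSub S G (m L0) → lineSub S G (m L0) := fun g => ⟨_, P.h1 L0 g.1 g.2⟩
    have hr : Function.Injective r := fun g g' e =>
      Subtype.ext (K.inj P h0 (congrArg Subtype.val e))
    obtain ⟨g, hg⟩ := Finite.surjective_of_injective hr ⟨a0, ha0⟩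
    exact hn0 g.1 g.2 (congrArg Subtype.val hg)
  have c1 : Cardinal.mk {N // L0 ≠ N} ≤ Cardinal.mk (cosets α (S.lineStab G (m L0))) := by
    apply Cardinal.mk_le_of_injective (f := fun N =>
      ⟨(fun b => (a N).toMul * α b) '' S.lineStab G (m L0), (a N).toMul, ha N, rfl⟩)
    intro N N' e
    have e' : (fun b => (a N).toMul * α b) '' S.lineStab G (m L0) =
      (fun b => (a N').toMul * α b) '' S.lineStab G (m L0) := congrArg Subtype.val e
    have h1 : (a N).toMul ∈ (fun b => (a N).toMul * α b) '' S.lineStab G (m L0) :=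
      ⟨1, rfl, by simp⟩
    rw [e'] at h1
    obtain ⟨g, hg, h2⟩ := h1
    apply hcos N N' (Additive.ofMul g) hg
    have h3 : a N' + MonoidHom.toAdditive α (Additive.ofMul g) = a N := h2
    rw [← h3]; abel
  have c2 : Cardinal.mk (cosets α (S.lineStab G (m L0))) ≤ Cardinal.mk (lineSub S G (m L0)) := by
    apply Cardinal.mk_le_of_surjective (f := fun g : lineSub S G (m L0) =>
      (⟨(fun b => g.1.toMul * α b) '' S.lineStab G (m L0), g.1.toMul, g.2, rfl⟩ :
        cosets α (S.lineStab G (m L0))))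
    rintro ⟨C, g, hg, rfl⟩
    exact ⟨⟨Additive.ofMul g, hg⟩, rfl⟩
  let pt : lineSub S G (m L0) → {p : S.Point // S.inc p (m L0)} := fun g =>
    ⟨S.onPoint (g.1.toMul : G) y, (hT.line_iff hy (hF L0) g.1.toMul.2).mp g.2⟩
  have c3 : Cardinal.mk (lineSub S G (m L0)) ≤ Cardinal.mk {p : S.Point // S.inc p (m L0)} := by
    apply Cardinal.mk_le_of_injective (f := pt)
    intro g g' e
    have := (hT.sharp y _ hy (hT.aff hy g.1.toMul.2)).unique ⟨g.1.toMul.2, rfl⟩
      ⟨g'.1.toMul.2, (congrArg Subtype.val e).symm⟩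
    exact Subtype.ext (Additive.toMul.injective (Subtype.ext this))
  have c4 : Cardinal.mk {p : S.Point // S.inc p (m L0)} ≤ Cardinal.mk (lineSub S G (m L0)) + 1 := by
    rw [← Cardinal.mk_option]
    apply Cardinal.mk_le_of_surjective (f := fun o : Option (lineSub S G (m L0)) =>
      o.elim ⟨w L0, (hF L0).zM⟩ pt)
    rintro ⟨q, hq⟩
    by_cases e : q = w L0
    · exact ⟨none, Subtype.ext e.symm⟩
    · obtain ⟨g, hg, e1, e2⟩ := hT.exists_move hy (hF L0) hq e
      exact ⟨some ⟨Additive.ofMul ⟨g, hg⟩, e2⟩, Subtype.ext e1⟩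
  have c5 : Cardinal.mk (lineSub S G (m L0)) ≤ Cardinal.mk {N : S.Line // S.inc x N} + 1 := by
    refine (le_succ (fun g : lineSub S G (m L0) => g ≠ 0) 0 (fun g hg => not_not.mp hg)).trans ?_
    obtain ⟨φ, hφ⟩ := K.s_le_t L0
    refine add_le_add_left (Cardinal.mk_le_of_injective
      (f := fun g => φ ⟨g.1.1, g.1.2, fun e => g.2 (Subtype.ext e)⟩) ?_) 1
    intro g g' e
    have h1 := congrArg Subtype.val (hφ e)
    exact Subtype.ext (Subtype.ext h1)
  have c6 : Cardinal.mk {N : S.Line // S.inc x N} ≤ Cardinal.mk {N // L0 ≠ N} + 1 :=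
    le_succ _ L0 (fun N hN => (not_not.mp hN).symm)
  have c7 : Cardinal.mk {N // L0 ≠ N} ≤ Cardinal.mk {N : S.Line // S.inc x N} :=
    Cardinal.mk_le_of_injective Subtype.val_injective
  have c8 := c5.trans (add_le_add_left c6 1)
  have infj : ℵ₀ ≤ Cardinal.mk {N // L0 ≠ N} := by
    by_contra hlt
    push Not at hlt
    exact absurd (inf.trans c8) (not_le.mpr (Cardinal.add_lt_aleph0
      (Cardinal.add_lt_aleph0 hlt Cardinal.one_lt_aleph0) Cardinal.one_lt_aleph0))
  rw [Cardinal.add_one_eq infj] at c6 c8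
  rw [Cardinal.add_one_eq infj] at c8
  rw [Cardinal.add_one_eq inf] at c4
  exact ⟨infj.trans c1, le_antisymm (c2.trans c3) (c4.trans (c8.trans c1)),
    le_antisymm (c2.trans (c8.trans c7)) (c6.trans c1)⟩

end Pool.Agent.Lib.MP_0f105f_co.Old.NonunitIndex
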